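import Mathlib
import Pool.Agent.Q76.PcFinal

/-!
# MP_e813d2_pr, Question 1: the answer is yes
-/

namespace Pool.Agent.Results.MP_e813d2_pr.ApproxThreePoint

open Q76.Pc

universe u

/-- For Bernoulli bond percolation with arbitrary edge probabilities on any connected, locally
finite graph: `P(ab|c) < min(ε,1)^5 / 3200` implies
`P(abc) P(a|b|c) - P(ac|b) P(a|bc) < ε`. -/
theorem result (ε : ℝ) (hε : 0 < ε) :
    ∃ δ : ℝ, 0 < δ ∧ δ = (min ε 1) ^ 5 / 3200 ∧
      ∀ (V : Type u) (G : SimpleGraph V), G.Connected → (∀ v, (G.neighborSet v).Finite) →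
        ∀ (p : G.edgeSet → unitInterval) (a b c : V), a ≠ b → a ≠ c → b ≠ c →
          Pab_c G p a b c < δ →
            Pabc G p a b c * Pa_b_c G p a b c - Pab_c G p a c b * Pab_c G p b c a < ε := by
  refine ⟨(min ε 1) ^ 5 / 3200, by positivity, rfl, ?_⟩
  intro V G hG hf p a b c _ _ _ h
  have : Countable V := countable_of_connected G hG hf
  have : Countable (Sym2 V) := by
    unfold Sym2
    infer_instance
  have : Countable G.edgeSet := inferInstance
  exact main_ineq G p a b c hε h

end Pool.Agent.Results.MP_e813d2_pr.ApproxThreePoint
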